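import Pool.Agent.U285.Scrib.Bridge

/-!
# For every `d ≥ 4` there is a `d`-polytope that is not `(0, d-1)`-scribable

The definitions (polytopes in Euclidean space, faces, combinatorial equivalence, strongly
avoiding, strongly cutting, scribable) are in `Pool.Agent.U285.Scrib.EucDefs`.
-/

namespace Pool.Agent.Results.MP_3c8515_co.NotVertexFacetScribable

open Pool.Agent.U285.Scrib.Euc

/-- For every `d ≥ 4` there is a `d`-polytope `P` in `ℝ^d` whose combinatorial type is not
(strongly) `(0, d-1)`-scribable: no `d`-polytope in `ℝ^d` combinatorially equivalent to `P` has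
all its vertices strongly avoiding and all its facets strongly cutting the unit sphere. -/
theorem result : ∀ d : ℕ, 4 ≤ d →
    ∃ P : Set (E d), IsPolytope P ∧ ¬ Scribable 0 (d - 1) P :=
  fun d hd => main d hd

end Pool.Agent.Results.MP_3c8515_co.NotVertexFacetScribable
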